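import Pool.Agent.Lib_MP_42fe4d_lc.CL.WM

/-!
# TM2 machines as windowed stack machines
-/

namespace Pool.Agent.PartSep.CL

open Turing Turing.TM2

section Stmt

variable {K : Type} [DecidableEq K] {Γ : K → Type} {Λ σ : Type}

/-- how deep a statement looks into the stacks -/
def depth : Stmt Γ Λ σ → ℕ
  | .push _ _ q => depth q
  | .peek _ _ q => depth q + 1
  | .pop _ _ q => depth q + 1
  | .load _ q => depth q
  | .branch _ q₁ q₂ => max (depth q₁) (depth q₂)
  | .goto _ => 0
  | .halt => 0

/-- the symbols pushed by a statement -/
def psyms : Stmt Γ Λ σ → Set (Σ k, Γ k)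
  | .push k f q => Set.range (fun v => (⟨k, f v⟩ : Σ k, Γ k)) ∪ psyms q
  | .peek _ _ q => psyms q
  | .pop _ _ q => psyms q
  | .load _ q => psyms q
  | .branch _ q₁ q₂ => psyms q₁ ∪ psyms q₂
  | .goto _ => ∅
  | .halt => ∅

theorem psyms_finite [Finite σ] (q : Stmt Γ Λ σ) : (psyms q).Finite := by
  induction q with
  | push k f q ih => exact (Set.finite_range _).union ih
  | peek k f q ih => exact ih
  | pop k f q ih => exact ih
  | load f q ih => exact ih
  | branch f q₁ q₂ ih₁ ih₂ => exact ih₁.union ih₂
  | goto f => exact Set.finite_empty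
  | halt => exact Set.finite_empty

theorem stepAux_append (q : Stmt Γ Λ σ) : ∀ (v : σ) (A B : ∀ k, List (Γ k)),
    (∀ k, depth q ≤ (A k).length ∨ B k = []) →
    stepAux q v (fun k => A k ++ B k) = ⟨(stepAux q v A).l, (stepAux q v A).var,
      fun k => (stepAux q v A).stk k ++ B k⟩ := by
  induction q with
  | push k f q ih =>
    intro v A B h
    have e : Function.update (fun k => A k ++ B k) k (f v :: (A k ++ B k)) =
        fun j => Function.update A k (f v :: A k) j ++ B j := by
      funext j
      by_cases hj : j = k
      · subst hj; simp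
      · simp [Function.update_of_ne hj]
    simp only [stepAux]
    rw [e, ih]
    intro j
    rcases h j with h | h
    · left
      refine le_trans h ?_
      by_cases hj : j = k
      · subst hj; simp
      · simp [Function.update_of_ne hj]
    · exact Or.inr h
  | peek k f q ih =>
    intro v A B h
    have e : (A k ++ B k).head? = (A k).head? := by
      rcases h k with h | h
      · cases hA : A k with
        | nil => rw [hA] at h; simp [depth] at h
        | cons a l => simp
      · simp [h]
    simp only [stepAux]
    rw [e, ih]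
    intro j
    rcases h j with h | h
    · left
      simp only [depth] at h
      omega
    · exact Or.inr h
  | pop k f q ih =>
    intro v A B h
    have e : (A k ++ B k).head? = (A k).head? := by
      rcases h k with h | h
      · cases hA : A k with
        | nil => rw [hA] at h; simp [depth] at h
        | cons a l => simp
      · simp [h]
    have e2 : Function.update (fun k => A k ++ B k) k (A k ++ B k).tail =
        fun j => Function.update A k (A k).tail j ++ B j := by
      funext j
      by_cases hj : j = k
      · subst hj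
        simp only [Function.update_self]
        rcases h j with h | h
        · cases hA : A j with
          | nil => rw [hA] at h; simp [depth] at h
          | cons a l => simp
        · simp [h]
      · simp [Function.update_of_ne hj]
    simp only [stepAux]
    rw [e, e2, ih]
    intro j
    rcases h j with h | h
    · left
      simp only [depth] at h
      by_cases hj : j = k
      · subst hj
        simp only [Function.update_self, List.length_tail]
        omega
      · simp only [Function.update_of_ne hj]
        omega
    · exact Or.inr h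
  | load f q ih =>
    intro v A B h
    simp only [stepAux]
    exact ih _ _ _ h
  | branch f q₁ q₂ ih₁ ih₂ =>
    intro v A B h
    simp only [stepAux]
    cases f v with
    | true =>
      simp only [cond_true]
      refine ih₁ _ _ _ (fun k => (h k).imp_left (fun h => ?_))
      simp only [depth] at h
      omega
    | false =>
      simp only [cond_false]
      refine ih₂ _ _ _ (fun k => (h k).imp_left (fun h => ?_))
      simp only [depth] at h
      omega
  | goto f =>
    intro v A B h
    simp only [stepAux]
  | halt =>
    intro v A B h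
    simp only [stepAux]

theorem stepAux_syms {A : Set (Σ k, Γ k)} (q : Stmt Γ Λ σ) :
    psyms q ⊆ A → ∀ (v : σ) (S : ∀ k, List (Γ k)),
      (∀ k, ∀ a ∈ S k, (⟨k, a⟩ : Σ k, Γ k) ∈ A) →
      ∀ k, ∀ a ∈ (stepAux q v S).stk k, (⟨k, a⟩ : Σ k, Γ k) ∈ A := by
  induction q with
  | push k f q ih =>
    intro hA v S hS
    simp only [stepAux]
    refine ih (fun x hx => hA (Or.inr hx)) _ _ ?_
    intro j a ha
    by_cases hj : j = k
    · subst hj
      simp only [Function.update_self, List.mem_cons] at ha
      rcases ha with rfl | ha
      · exact hA (Or.inl ⟨v, rfl⟩)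
      · exact hS _ _ ha
    · rw [Function.update_of_ne hj] at ha
      exact hS _ _ ha
  | peek k f q ih =>
    intro hA v S hS
    simp only [stepAux]
    exact ih hA _ _ hS
  | pop k f q ih =>
    intro hA v S hS
    simp only [stepAux]
    refine ih hA _ _ ?_
    intro j a ha
    by_cases hj : j = k
    · subst hj
      simp only [Function.update_self] at ha
      exact hS _ _ (List.mem_of_mem_tail ha)
    · rw [Function.update_of_ne hj] at ha
      exact hS _ _ ha
  | load f q ih =>
    intro hA v S hS
    simp only [stepAux]
    exact ih hA _ _ hS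
  | branch f q₁ q₂ ih₁ ih₂ =>
    intro hA v S hS
    simp only [stepAux]
    cases f v with
    | true => exact ih₁ (fun x hx => hA (Or.inl hx)) _ _ hS
    | false => exact ih₂ (fun x hx => hA (Or.inr hx)) _ _ hS
  | goto f =>
    intro hA v S hS
    exact hS
  | halt =>
    intro hA v S hS
    exact hS

end Stmt

variable (tm : FinTM2)

/-- all symbols that can occur in a computation -/
def syms : Set (Σ k, tm.Γ k) :=
  (⋃ l : tm.Λ, psyms (tm.m l)) ∪ Set.range (fun a : tm.Γ tm.k₀ => (⟨tm.k₀, a⟩ : Σ k, tm.Γ k))

theorem syms_finite : (syms tm).Finite := by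
  have := tm.ΛFin
  have := tm.σFin
  have := tm.Γk₀Fin
  exact (Set.finite_iUnion (fun l => psyms_finite _)).union (Set.finite_range _)

/-- the symbols of a stack -/
abbrev GG (k : tm.K) : Type := {a : tm.Γ k // (⟨k, a⟩ : Σ k, tm.Γ k) ∈ syms tm}

instance (k : tm.K) : Finite (GG tm k) := by
  have := (syms_finite tm).to_subtype
  apply Finite.of_injective (fun a : GG tm k => (⟨⟨k, a.1⟩, a.2⟩ : syms tm))
  intro a b h
  have h1 := congrArg Subtype.val h
  simp only [Sigma.mk.injEq, heq_eq_eq, true_and] at h1
  exact Subtype.ext h1

open Classical in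
/-- lifting a string to the symbols that can occur -/
noncomputable def lift (k : tm.K) (l : List (tm.Γ k)) : List (GG tm k) :=
  l.filterMap (fun a => if h : (⟨k, a⟩ : Σ k, tm.Γ k) ∈ syms tm then some ⟨a, h⟩ else none)

theorem lift_map_val {k : tm.K} {l : List (tm.Γ k)}
    (h : ∀ a ∈ l, (⟨k, a⟩ : Σ k, tm.Γ k) ∈ syms tm) : (lift tm k l).map Subtype.val = l := by
  induction l with
  | nil => rfl
  | cons a l ih =>
    have h1 := h a (by simp)
    have h2 := ih (fun b hb => h b (by simp [hb]))
    simp only [lift] at h2 ⊢
    rw [List.filterMap_cons_some (b := ⟨a, h1⟩) (by rw [dif_pos h1])]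
    rw [List.map_cons, h2]

/-- the windowed stack machine of a TM2 machine -/
@[reducible]
noncomputable def wm : WM where
  Q := Option tm.Λ × tm.σ
  K := tm.K
  G := GG tm
  fQ := by
    have := tm.ΛFin
    have := tm.σFin
    exact inferInstance
  fK := tm.kFin
  fG := fun k => Fintype.ofFinite _
  dK := tm.kDecidableEq
  c := @Finset.sup _ _ _ _ (@Finset.univ tm.Λ tm.ΛFin) (fun l => depth (tm.m l))
  δ := fun q A => match q with
    | (none, v) => ((none, v), A)
    | (some l, v) => (((stepAux (tm.m l) v (fun k => (A k).map Subtype.val)).l,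
        (stepAux (tm.m l) v (fun k => (A k).map Subtype.val)).var),
        fun k => lift tm k ((stepAux (tm.m l) v (fun k => (A k).map Subtype.val)).stk k))

/-- the TM2 configuration of a configuration of the windowed machine -/
def toCfg (C : (wm tm).Cfg) : tm.Cfg :=
  ⟨C.1.1, C.1.2, fun k => ((C.2 k : List (GG tm k))).map Subtype.val⟩

theorem toCfg_next_some {C : (wm tm).Cfg} {l : tm.Λ} (h : C.1.1 = some l) :
    tm.step (toCfg tm C) = some (toCfg tm ((wm tm).next C)) := by
  obtain ⟨⟨l', v⟩, S⟩ := C
  simp only at h
  subst h
  change some (stepAux (tm.m l) v (fun k => ((S k : List (GG tm k))).map Subtype.val)) = _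
  congr 1
  have hsplit : (fun k => ((S k : List (GG tm k))).map Subtype.val) =
      fun k => (((S k : List (GG tm k)).take (wm tm).c).map Subtype.val) ++
        (((S k : List (GG tm k)).drop (wm tm).c).map Subtype.val) := by
    funext k
    rw [← List.map_append, List.take_append_drop]
  have hd : depth (tm.m l) ≤ (wm tm).c := by
    have := tm.ΛFin
    exact Finset.le_sup (f := fun l => depth (tm.m l)) (@Finset.mem_univ _ tm.ΛFin l)
  rw [hsplit, stepAux_append]
  · have hs : ∀ k, ∀ a ∈ (stepAux (tm.m l) v (fun k =>
        ((S k : List (GG tm k)).take (wm tm).c).map Subtype.val)).stk k,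
        (⟨k, a⟩ : Σ k, tm.Γ k) ∈ syms tm := by
      refine stepAux_syms _ (fun x hx => Or.inl (Set.mem_iUnion.2 ⟨l, hx⟩)) _ _ ?_
      intro k a ha
      obtain ⟨b, -, rfl⟩ := List.mem_map.1 ha
      exact b.2
    unfold toCfg WM.next
    simp only [wm]
    congr 1
    funext k
    rw [List.map_append]
    congr 1
    exact (lift_map_val tm (hs k)).symm
  · intro k
    by_cases hk : (wm tm).c ≤ (S k : List (GG tm k)).length
    · left
      rw [List.length_map, List.length_take]
      omega
    · right
      rw [List.drop_eq_nil_of_le (by omega)]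
      rfl

theorem next_none {C : (wm tm).Cfg} (h : C.1.1 = none) : (wm tm).next C = C := by
  obtain ⟨⟨l', v⟩, S⟩ := C
  simp only at h
  subst h
  unfold WM.next
  simp only [wm]
  congr 1
  funext k
  exact List.take_append_drop _ _

theorem iterate_none {C : (wm tm).Cfg} (h : C.1.1 = none) (n : ℕ) : (wm tm).next^[n] C = C := by
  induction n with
  | zero => rfl
  | succ n ih => rw [Function.iterate_succ_apply, next_none tm h, ih]

theorem bind_iterate_none (n : ℕ) : (flip bind tm.step)^[n] none = none := by
  induction n with
  | zero => rfl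
  | succ n ih => rw [Function.iterate_succ_apply]; exact ih

theorem toCfg_iterate (n : ℕ) : ∀ (C : (wm tm).Cfg) (D : tm.Cfg),
    (flip bind tm.step)^[n] (some (toCfg tm C)) = some D → toCfg tm ((wm tm).next^[n] C) = D := by
  induction n with
  | zero =>
    intro C D h
    exact Option.some.inj h
  | succ n ih =>
    intro C D h
    rw [Function.iterate_succ_apply] at h ⊢
    change (flip bind tm.step)^[n] (tm.step (toCfg tm C)) = _ at h
    cases hl : C.1.1 with
    | none =>
      have : tm.step (toCfg tm C) = none := by
        obtain ⟨⟨l', v⟩, S⟩ := C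
        simp only at hl
        subst hl
        rfl
      rw [this, bind_iterate_none] at h
      exact absurd h (by simp)
    | some l =>
      rw [toCfg_next_some tm hl] at h
      exact ih _ _ h

theorem toCfg_iterate_halt {n T : ℕ} (hnT : n ≤ T) {C : (wm tm).Cfg} {D : tm.Cfg}
    (hD : D.l = none) (h : (flip bind tm.step)^[n] (some (toCfg tm C)) = some D) :
    toCfg tm ((wm tm).next^[T] C) = D := by
  obtain ⟨m, rfl⟩ := Nat.exists_eq_add_of_le hnT
  have h1 := toCfg_iterate tm n C D h
  rw [Nat.add_comm, Function.iterate_add_apply]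
  have h2 : ((wm tm).next^[n] C).1.1 = none := by
    rw [← hD, ← h1]
    rfl
  rw [iterate_none tm h2, h1]

/-- input symbols -/
def inSym (e : tm.Γ tm.k₀ ≃ Bool) (b : Bool) : (wm tm).G tm.k₀ :=
  (⟨e.symm b, Or.inr ⟨_, rfl⟩⟩ : GG tm tm.k₀)

theorem toCfg_initC (e : tm.Γ tm.k₀ ≃ Bool) (d w : List Bool) :
    toCfg tm ((wm tm).initC tm.k₀ (some tm.main, tm.initialState) (inSym tm e) d w) =
      initList tm ((d ++ WM.vw w).map e.symm) := by
  unfold toCfg WM.initC initList
  simp only
  congr 1
  funext k
  by_cases h : k = tm.k₀
  · subst h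
    simp only [dite_true]
    have : (Function.update (fun k => ([] : List ((wm tm).G k))) tm.k₀
        ((d ++ WM.vw w).map (inSym tm e))) tm.k₀ = (d ++ WM.vw w).map (inSym tm e) :=
      Function.update_self _ _ _
    rw [this, List.map_map]
    rfl
  · rw [dif_neg h]
    have : (Function.update (fun k => ([] : List ((wm tm).G k))) tm.k₀
        ((d ++ WM.vw w).map (inSym tm e))) k = [] :=
      Function.update_of_ne h _ _
    rw [this]
    rfl

/-- the windowed machine accepts iff the output is `true` -/
theorem acc_iff {T : ℕ} {d w : List Bool} {e : tm.Γ tm.k₀ ≃ Bool} {e' : tm.Γ tm.k₁ ≃ Bool}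
    {b : Bool} {m : ℕ} (hm : m ≤ T)
    (h : TM2OutputsInTime tm ((d ++ WM.vw w).map e.symm) (some [e'.symm b]) m) :
    WM.Acc tm.k₁ (fun g : GG tm tm.k₁ => e' g.1 = true) ((wm tm).next^[T]
      ((wm tm).initC tm.k₀ (some tm.main, tm.initialState) (inSym tm e) d w)) ↔ b = true := by
  have h1 : (flip bind tm.step)^[h.steps] (some (toCfg tm ((wm tm).initC tm.k₀
      (some tm.main, tm.initialState) (inSym tm e) d w))) = some (haltList tm [e'.symm b]) := by
    rw [toCfg_initC]
    exact h.evals_in_steps
  have h2 := toCfg_iterate_halt tm (h.steps_le_m.trans hm) (D := haltList tm [e'.symm b]) rfl h1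
  set C := (wm tm).next^[T]
      ((wm tm).initC tm.k₀ (some tm.main, tm.initialState) (inSym tm e) d w) with hC
  have h3 : ((C.2 tm.k₁ : List (GG tm tm.k₁))).map Subtype.val = [e'.symm b] := by
    have := congrArg (fun D : tm.Cfg => D.stk tm.k₁) h2
    simpa [toCfg, haltList] using this
  cases hl : (C.2 tm.k₁ : List (GG tm tm.k₁)) with
  | nil => rw [hl] at h3; simp at h3
  | cons g l =>
    rw [hl] at h3
    simp only [List.map_cons, List.cons.injEq, List.map_eq_nil_iff] at h3
    obtain ⟨h4, rfl⟩ := h3
    unfold WM.Acc
    constructor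
    · intro hacc
      have := hacc g (by rw [hl]; rfl)
      simp only [h4, Equiv.apply_symm_apply] at this
      exact this
    · intro hb g' hg'
      rw [hl] at hg'
      simp only [List.getElem?_cons_zero, Option.some.injEq] at hg'
      subst hg'
      simp only [h4, Equiv.apply_symm_apply]
      exact hb

end Pool.Agent.PartSep.CL
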