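import Pool.Agent.Lib_MP_42fe4d_lc.CL.Gen
import Pool.Agent.Lib_MP_42fe4d_lc.CL.OfTM2
import Pool.Prelude.Def_H_3587d628

/-!
# The Cook–Levin theorem for the class `NP` of `Pool.Prelude`
-/

namespace Pool.Agent.PartSep.CL

open TM WM N487b59b3

theorem bitEncode_bits (w : List Bool) : bitEncode w = vw w := by
  change ((w.map bitEncode).map delimit).flatten = _
  unfold vw
  rw [List.flatMap_def, List.map_map]
  rfl

theorem bitEncode_pair_bits (x w : List Bool) :
    bitEncode (x, w) = delimit (bitEncode x) ++ vw w := by
  rw [← bitEncode_bits]
  rfl

theorem length_splitB_bits (x : List Bool) : (splitB ((bitEncode x).map bs)).length = x.length := by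
  rw [bitEncode_list]
  have : x.flatMap (fun a => del ((bitEncode a).map bs)) =
      (x.map (fun a => (bitEncode a).map bs)).flatMap del := by
    rw [List.flatMap_map]
  rw [this, splitB_flatMap, List.length_map]

theorem map_sb_bs (l : List Bool) : (l.map bs).map sb = l := by
  rw [List.map_map]
  have : sb ∘ bs = id := by
    funext b
    exact sb_bs b
  rw [this, List.map_id]

/-- **Cook–Levin.** For every language in `NP` there is a polynomial time function computing, from
the code of a word, a formula in conjunctive normal form which is satisfiable if and only if the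
word belongs to the language. -/
theorem cook_levin {L : List Bool → Bool} (hL : L ∈ N68a2faeb.NP) :
    ∃ g : List Sym → CNF Name, FP g ∧
      ∀ x : List Bool, (L x = true ↔ (g ((bitEncode x).map bs)).Satisfiable) := by
  obtain ⟨p, R, hR, hx⟩ := hL
  obtain ⟨hR⟩ := hR
  let tm := hR.tm
  let M := wm tm
  let N : List Sym → ℕ := fun s => p.eval (splitB s).length
  let T : List Sym → ℕ := fun s => hR.time.eval ((del s).length + 3 * N s)
  let H : List Sym → ℕ := fun s => M.c * T s + 1
  have hN : FP N := FP.poly (FP.lengthE (FP.splitB FP.id)) p
  have hd : FP (fun s : List Sym => del s) := FP.del FP.id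
  have hT : FP T := FP.poly (FP.add (FP.length hd) (FP.mulConst hN 3)) _
  have hH : FP H := FP.add (FP.mulConst hT _) (FP.const 1)
  refine ⟨fun s => rename vname (M.formula tm.k₀ (some tm.main, tm.initialState)
    (inSym tm hR.inputAlphabet) tm.k₁ (fun g : GG tm tm.k₁ => hR.outputAlphabet g.1 = true)
    (T s) (N s) (H s) ((del s).map sb)), fp_rename (fp_formula hT hN hH hd), fun x => ?_⟩
  simp only
  rw [sat_rename vname_injective, formula_iff (Nat.lt_succ_self _), hx]
  have hNx : N ((bitEncode x).map bs) = p.eval x.length := by
    simp only [N, length_splitB_bits]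
  have hdx : (del ((bitEncode x).map bs)).map sb = delimit (bitEncode x) := by
    rw [← map_delimit, map_sb_bs]
  rw [hNx, hdx]
  refine exists_congr (fun w => and_congr_right (fun hw => ?_))
  have hout := hR.outputsFun (x, w)
  have hin : (N487b59b3.toEncoding (α := List Bool × List Bool)).encode (x, w) =
      delimit (bitEncode x) ++ vw w := bitEncode_pair_bits x w
  have hlen : hR.time.eval (delimit (bitEncode x) ++ vw w).length ≤
      T ((bitEncode x).map bs) := by
    apply poly_mono
    rw [List.length_append, length_vw, hNx]
    have : (del ((bitEncode x).map bs)).length = (delimit (bitEncode x)).length := by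
      rw [← map_delimit, List.length_map]
    rw [this]
    omega
  have hout' : Turing.TM2OutputsInTime tm ((delimit (bitEncode x) ++ vw w).map
      hR.inputAlphabet.symm) (some [hR.outputAlphabet.symm (R (x, w))])
      (hR.time.eval (delimit (bitEncode x) ++ vw w).length) := by
    rw [← hin]
    exact hout
  exact (acc_iff tm hlen hout').symm

end Pool.Agent.PartSep.CL
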