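import Pool.Agent.Lib_MP_42fe4d_lc.CL.CookLevin

/-!
# Every polynomial time TM2 function belongs to `FP`
-/

namespace Pool.Agent.PartSep.CL

open TM Rep WM N487b59b3 Turing

set_option synthInstance.maxSize 2000

variable {E F G : Type} [Rep E] [Rep F] [Rep G]

open Classical in
/-- a function with values in a discrete type whose values can be tested -/
def FPF {ι : Type} (f : E → ι) : Prop := ∀ a, FP (fun x => decide (f x = a))

theorem FPF.case {ι : Type} [Finite ι] {f : E → ι} (hf : FPF f) {g : ι → E → F}
    (hg : ∀ a, FP (g a)) : FP (fun x => g (f x) x) := by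
  classical
  have := Fintype.ofFinite ι
  have key : ∀ L : List ι, FPon (fun x => f x ∈ L) (fun x => g (f x) x) := by
    intro L
    induction L with
    | nil => exact ⟨0, Prog.skip, 0, fun x hx => by simp at hx⟩
    | cons a L ih =>
      refine (FPon.ite (p := fun x => decide (f x = a)) (hf a).on (f := g a)
        (g := fun x => g (f x) x) (hg a).on (ih.mono ?_)).congr ?_
      · rintro x ⟨h1, h2⟩
        rcases List.mem_cons.1 h1 with h | h
        · simp [h] at h2
        · exact h
      · intro x _
        by_cases h : f x = a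
        · simp [h]
        · simp [h]
  exact (key (Finset.univ : Finset ι).toList).mono (fun x _ => by simp)

theorem FPF.comp {ι : Type} {f : F → ι} {g : E → F} (hf : FPF f) (hg : FP g) :
    FPF (fun x => f (g x)) := fun a => FP.comp (hf a) hg

theorem FPF.pair {ι κ : Type} {f : E → ι} {g : E → κ} (hf : FPF f) (hg : FPF g) :
    FPF (fun x => (f x, g x)) := by
  classical
  rintro ⟨a, b⟩
  refine (FP.and (hf a) (hg b)).congr (fun x => ?_)
  rw [Bool.eq_iff_iff]
  simp

theorem fp_all {ι : Type} (L : List ι) {g : ι → E → Bool} (hg : ∀ a, FP (g a)) :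
    FP (fun x => L.all (fun a => g a x)) := by
  induction L with
  | nil => exact FP.const _
  | cons a L ih => exact FP.and (hg a) ih

theorem FPF.pi {I : Type} [Finite I] {α : I → Type} {f : E → ∀ i, α i}
    (h : ∀ i, FPF (fun x => f x i)) : FPF f := by
  classical
  have := Fintype.ofFinite I
  intro a
  refine (fp_all (Finset.univ : Finset I).toList (fun i => h i (a i))).congr (fun x => ?_)
  rw [Bool.eq_iff_iff]
  simp [funext_iff]

/-- dependent functions on a finite type -/
instance {K : Type} [Fintype K] [DecidableEq K] {A : K → Type} [∀ k, Rep (A k)] :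
    Rep (∀ k, A k) where
  ix := Σ k, ix (A k)
  rep f := fun kj => rep (f kj.1) kj.2

section Pi

variable {K : Type} [Fintype K] [DecidableEq K] {A : K → Type} [∀ k, Rep (A k)]

theorem size_pi (f : ∀ k, A k) : size f = ∑ k, size (f k) := by
  change ∑ i : (Σ k, ix (A k)), (rep (f i.1) i.2).length = _
  rw [Fintype.sum_sigma]
  rfl

theorem fp_piMk {f : E → ∀ k, A k} (h : ∀ k, FP (fun x => f x k)) : FP f :=
  FP.pi (fun j => (h j.1).comp_rep j.2)

theorem fp_piApp {f : E → ∀ k, A k} (h : FP f) (k : K) : FP (fun x => f x k) :=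
  FP.comp (FP.proj (E := ∀ k, A k) (F := A k) (f := fun f => f k) (fun j => ⟨k, j⟩)
    (fun _ _ => rfl)) h

end Pi

/-- `repFin` equality tests -/
theorem fpf_repFin {ι : Type} [Finite ι] {f : E → ι} (hf : @FP E ι _ (repFin ι) f) : FPF f := by
  classical
  let _ := repFin ι
  intro a
  refine (FP.eqS (hf.comp_rep ()) (FP.const (rep a ()))).congr (fun x => ?_)
  rw [Bool.eq_iff_iff, decide_eq_true_eq, decide_eq_true_eq]
  constructor
  · exact fun h => repFin_injective h
  · exact fun h => by rw [h]

section Machine

variable (M : WM)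

noncomputable local instance instQ : Rep M.Q := repFin M.Q
noncomputable local instance instG (k : M.K) : Rep (M.G k) := repFin (M.G k)

/-- reading an entry of a list over a finite type -/
theorem fpf_get {ι : Type} [Finite ι] [Inhabited ι] (i : ℕ) :
    @FPF (List ι) (@instRepList ι (repFin ι)) _ (fun l : List ι => l[i]?) := by
  classical
  let _ := repFin ι
  intro a
  refine FP.caseList (FP.dropE FP.id (FP.const i)) (g0 := fun _ => decide (none = a)) (FP.const _)
    (g := fun z => decide (some z.2.1 = a)) ?_ (fun l h => ?_) (fun l b t h => ?_)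
  · have h1 : FPF (fun z : List ι × ι × List ι => z.2.1) :=
      fpf_repFin (FP.comp FP.fst FP.snd)
    cases a with
    | none => exact (FP.const false).congr (fun x => by simp)
    | some a => exact (h1 a).congr (fun x => by simp)
  · have : l[i]? = none := by
      rw [List.getElem?_eq_none_iff]
      exact List.drop_eq_nil_iff.1 h
    simp only [this]
  · have : l[i]? = some b := by
      rw [← List.head?_drop, h]
      rfl
    simp only [this]

theorem size_drop_le (l : List E) (n : ℕ) : size (l.drop n) ≤ size l := by
  have e : size l = size (l.take n) + size (l.drop n) := by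
    rw [← size_append, List.take_append_drop]
  omega

theorem fp_drop' {l : E → List F} (hl : FP l) (n : ℕ) : FP (fun x => (l x).drop n) := by
  by_cases h : Nonempty F
  · have : Inhabited F := ⟨h.some⟩
    exact FP.dropE hl (FP.const n)
  · rw [not_nonempty_iff] at h
    refine (FP.const []).congr (fun x => ?_)
    cases l x with
    | nil => simp
    | cons a l => exact h.elim a

theorem fp_append' {l m : E → List F} (hl : FP l) (hm : FP m) :
    FP (fun x => l x ++ m x) := by
  by_cases h : Nonempty F
  · have : Inhabited F := ⟨h.some⟩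
    exact FP.appendE hl hm
  · rw [not_nonempty_iff] at h
    refine (FP.const []).congr (fun x => ?_)
    cases l x ++ m x with
    | nil => simp
    | cons a l => exact h.elim a

theorem fp_mapSym {s : E → List Sym} (hs : FP s) (h : Sym → F) : FP (fun x => (s x).map h) := by
  have : Inhabited F := ⟨h Sym.i⟩
  have h1 := FP.foldl_growth hs (init := fun _ => ([] : List F)) (FP.const _)
    (step := fun a y => h a :: y.2) (fun a => FP.consE (FP.const _) FP.snd)
    (Polynomial.C (1 + Fintype.card (ix F) + 2 * ∑ a, size (h a))) (by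
      intro a x s
      simp only [size_cons, Polynomial.eval_C]
      have : size (h a) ≤ ∑ a, size (h a) :=
        Finset.single_le_sum (f := fun a => size (h a)) (fun _ _ => Nat.zero_le _)
          (Finset.mem_univ a)
      omega)
  refine (FP.reverseE h1).congr (fun x => ?_)
  have key : ∀ (l : List Sym) (s : List F), (List.foldl (fun s a => h a :: s) s l).reverse =
      s.reverse ++ l.map h := by
    intro l
    induction l with
    | nil => simp
    | cons a l ih => intro s; rw [List.foldl_cons, ih]; simp
  simpa using key (s x) []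

theorem fpf_get' {ι : Type} [Finite ι] (i : ℕ) :
    @FPF (List ι) (@instRepList ι (repFin ι)) _ (fun l : List ι => l[i]?) := by
  by_cases h : Nonempty ι
  · have : Inhabited ι := ⟨h.some⟩
    exact fpf_get i
  · rw [not_nonempty_iff] at h
    let _ := repFin ι
    intro a
    classical
    refine (FP.const (decide (none = a))).congr (fun x => ?_)
    cases x with
    | nil => simp
    | cons b l => exact h.elim b

theorem fpf_win : FPF (fun C : M.Cfg => (C.1, M.win C.2)) := by
  refine FPF.pair (fpf_repFin FP.fst) (FPF.pi (fun k => FPF.pi (fun i => ?_)))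
  exact (fpf_get' i.1).comp (fp_piApp FP.snd k)

theorem fp_next : FP (M.next : M.Cfg → M.Cfg) := by
  refine ((fpf_win M).case (g := fun qW C => (((M.δ qW.1 (M.tops qW.2)).1,
    fun k => (M.δ qW.1 (M.tops qW.2)).2 k ++ (C.2 k).drop M.c) : M.Cfg)) (fun qW => ?_)).congr ?_
  · refine FP.pair (FP.const _) (fp_piMk (fun k => ?_))
    exact fp_append' (FP.const _) (fp_drop' (fp_piApp FP.snd k) _)
  · intro C
    simp only [tops_win]
    rfl

theorem size_next : ∃ B : ℕ, ∀ C : M.Cfg, size (M.next C) ≤ size C + B := by
  refine ⟨∑ qW : M.Q × M.Win, size ((M.δ qW.1 (M.tops qW.2)) : M.Cfg), fun C => ?_⟩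
  have h1 : size ((M.δ C.1 (M.tops (M.win C.2))) : M.Cfg) ≤
      ∑ qW : M.Q × M.Win, size ((M.δ qW.1 (M.tops qW.2)) : M.Cfg) :=
    Finset.single_le_sum (f := fun qW : M.Q × M.Win => size ((M.δ qW.1 (M.tops qW.2)) : M.Cfg))
      (fun _ _ => Nat.zero_le _) (Finset.mem_univ (C.1, M.win C.2))
  have h2 : size (M.next C) ≤ size ((M.δ C.1 (M.tops (M.win C.2))) : M.Cfg) + size C.2 := by
    rw [tops_win, size_pair, size_pair, size_pi, size_pi, size_pi, Nat.add_assoc,
      ← Finset.sum_add_distrib]
    refine Nat.add_le_add_left (Finset.sum_le_sum (fun k _ => ?_)) _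
    change size (_ ++ (C.2 k).drop M.c) ≤ _
    rw [size_append]
    exact Nat.add_le_add_left (size_drop_le _ _) _
  have h3 : size C.2 ≤ size C := by rw [size_pair C]; omega
  omega

theorem fp_iterate {T : E → ℕ} (hT : FP T) {C : E → M.Cfg} (hC : FP C) :
    FP (fun x => M.next^[T x] (C x)) := by
  obtain ⟨B, hB⟩ := size_next M
  exact FP.natRec_growth hT hC (step := fun y => M.next y.2) (FP.comp (fp_next M) FP.snd)
    (Polynomial.C B) (by
      intro x s
      simp only [Polynomial.eval_C]
      exact hB s)

theorem fp_initC {k₀ : M.K} {q₀ : M.Q} {inG : Bool → M.G k₀} {s : E → List Sym} (hs : FP s) :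
    FP (fun x => M.initC k₀ q₀ inG ((s x).map sb) []) := by
  refine FP.pair (FP.const _) (fp_piMk (fun k => ?_))
  by_cases h : k = k₀
  · subst h
    refine (fp_mapSym hs (fun a => inG (sb a))).congr (fun x => ?_)
    simp [initC, vw]
  · refine (FP.const []).congr (fun x => ?_)
    simp [h]

theorem fp_run {k₀ k₁ : M.K} {q₀ : M.Q} {inG : Bool → M.G k₀} (out : M.G k₁ → List Sym)
    {T : E → ℕ} (hT : FP T) {s : E → List Sym} (hs : FP s) :
    FP (fun x => ((M.next^[T x] (M.initC k₀ q₀ inG ((s x).map sb) [])).2 k₁).flatMap out) := by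
  have h1 : FP (fun x => (M.next^[T x] (M.initC k₀ q₀ inG ((s x).map sb) [])).2 k₁) :=
    fp_piApp (FP.comp FP.snd (fp_iterate M hT (fp_initC M hs))) k₁
  by_cases h : Nonempty (M.G k₁)
  · have : Inhabited (M.G k₁) := ⟨h.some⟩
    refine FP.flatMapS h1 (g := fun y => out y.2) ?_
    exact (fpf_repFin FP.snd).case (g := fun a _ => out a) (fun a => FP.const _)
  · rw [not_nonempty_iff] at h
    refine (FP.const []).congr (fun x => ?_)
    cases (M.next^[T x] (M.initC k₀ q₀ inG ((s x).map sb) [])).2 k₁ with
    | nil => simp
    | cons a l => exact h.elim a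

end Machine

theorem flatMap_single {α β : Type} (h : α → β) (l : List α) :
    l.flatMap (fun a => [h a]) = l.map h := by
  induction l with
  | nil => rfl
  | cons a l ih => simp [ih]

/-- Every function computed by a polynomial time TM2 machine on bit strings belongs to `FP`. -/
theorem FP.ofTM2 {α β : Type} {ea : α → List Bool} {eb : β → List Bool} {f : α → β}
    (h : Nonempty (Turing.TM2ComputableInPolyTime ea eb f)) :
    ∃ g : List Sym → List Sym, FP g ∧ ∀ a, g ((ea a).map bs) = (eb (f a)).map bs := by
  obtain ⟨hR⟩ := h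
  let tm := hR.tm
  let T : List Sym → ℕ := fun s => hR.time.eval s.length
  refine ⟨fun s => (((wm tm).next^[T s] ((wm tm).initC tm.k₀ (some tm.main, tm.initialState)
    (inSym tm hR.inputAlphabet) (s.map sb) [])).2 tm.k₁).flatMap
      (fun g : GG tm tm.k₁ => [bs (hR.outputAlphabet g.1)]),
    fp_run (wm tm) (fun g : GG tm tm.k₁ => [bs (hR.outputAlphabet g.1)])
      (FP.poly (FP.length FP.id) _) FP.id, fun a => ?_⟩
  simp only [map_sb_bs]
  have hout := hR.outputsFun a
  have h1 : (flip bind tm.step)^[hout.steps] (some (toCfg tm ((wm tm).initC tm.k₀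
      (some tm.main, tm.initialState) (inSym tm hR.inputAlphabet) (ea a) []))) =
      some (haltList tm ((eb (f a)).map hR.outputAlphabet.invFun)) := by
    rw [toCfg_initC]
    have : ea a ++ vw [] = ea a := by simp [vw]
    rw [this]
    exact hout.evals_in_steps
  have hT : hout.steps ≤ T ((ea a).map bs) := by
    refine hout.steps_le_m.trans ?_
    simp only [T, List.length_map]
    exact le_rfl
  have h2 := toCfg_iterate_halt tm hT
    (D := haltList tm ((eb (f a)).map hR.outputAlphabet.invFun)) rfl h1
  set C := (wm tm).next^[T ((ea a).map bs)] ((wm tm).initC tm.k₀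
      (some tm.main, tm.initialState) (inSym tm hR.inputAlphabet) (ea a) []) with hC
  have h3 : ((C.2 tm.k₁ : List (GG tm tm.k₁))).map Subtype.val =
      (eb (f a)).map hR.outputAlphabet.invFun := by
    have := congrArg (fun D : tm.Cfg => D.stk tm.k₁) h2
    simpa [toCfg, haltList] using this
  have h4 : (C.2 tm.k₁ : List (GG tm tm.k₁)).flatMap
      (fun g : GG tm tm.k₁ => [bs (hR.outputAlphabet g.1)]) =
      ((C.2 tm.k₁ : List (GG tm tm.k₁)).map Subtype.val).map
        (fun g => bs (hR.outputAlphabet g)) := by
    rw [List.map_map]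
    exact flatMap_single _ _
  rw [h4, h3, List.map_map]
  congr 1
  funext b
  simp

end Pool.Agent.PartSep.CL
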