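import Pool.Agent.Lib_MP_42fe4d_lc.Defs

/-!
# Windowed stack machines and the Cook–Levin formula

A windowed stack machine reads, in each step, the top `c` symbols of each of its stacks, and
replaces them by new strings. Its computations are described by formulas in conjunctive normal
form.
-/

namespace Pool.Agent.PartSep.CL

/-- windowed stack machines -/
structure WM where
  Q : Type
  K : Type
  G : K → Type
  [fQ : Fintype Q]
  [fK : Fintype K]
  [fG : ∀ k, Fintype (G k)]
  [dK : DecidableEq K]
  c : ℕ
  δ : Q → (∀ k, List (G k)) → Q × (∀ k, List (G k))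

attribute [instance] WM.fQ WM.fK WM.fG WM.dK

namespace WM

variable (M : WM)

/-- configurations -/
abbrev Cfg := M.Q × (∀ k, List (M.G k))

/-- one step -/
def next (C : M.Cfg) : M.Cfg :=
  ((M.δ C.1 (fun k => (C.2 k).take M.c)).1,
    fun k => (M.δ C.1 (fun k => (C.2 k).take M.c)).2 k ++ (C.2 k).drop M.c)

/-- windows -/
abbrev Win := ∀ k, Fin M.c → Option (M.G k)

/-- the window of the stacks -/
def win (S : ∀ k, List (M.G k)) : M.Win := fun k i => (S k)[i.1]?

/-- the tops of the stacks given by a window -/
def tops (W : M.Win) : ∀ k, List (M.G k) := fun k => (List.ofFn (W k)).reduceOption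

theorem reduceOption_ofFn {α : Type} (n : ℕ) (l : List α) :
    (List.ofFn fun i : Fin n => l[i.1]?).reduceOption = l.take n := by
  induction n generalizing l with
  | zero => simp
  | succ n ih =>
    rw [List.ofFn_succ]
    cases l with
    | nil =>
      have := ih ([] : List α)
      simp only [Fin.val_zero, List.getElem?_nil, Fin.val_succ, List.take_nil] at this ⊢
      rw [List.reduceOption_cons_of_none]
      exact this
    | cons a l =>
      simp only [Fin.val_zero, List.getElem?_cons_zero, Fin.val_succ, List.getElem?_cons_succ,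
        List.take_succ_cons]
      rw [List.reduceOption_cons_of_some, ih]

theorem tops_win (S : ∀ k, List (M.G k)) : M.tops (M.win S) = fun k => (S k).take M.c := by
  funext k
  exact reduceOption_ofFn _ _

/-- the atomic facts -/
inductive DD : Type
  | ctl (q : M.Q)
  | cell (k : M.K) (a : Option (M.G k))
  | wa
  | wb

instance : Finite M.DD := by
  let f : M.DD → M.Q ⊕ (Σ k : M.K, Option (M.G k)) ⊕ Bool := fun d => match d with
    | .ctl q => Sum.inl q
    | .cell k a => Sum.inr (Sum.inl ⟨k, a⟩)
    | .wa => Sum.inr (Sum.inr true)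
    | .wb => Sum.inr (Sum.inr false)
  apply Finite.of_injective f
  rintro (a | ⟨k, a⟩ | _ | _) (b | ⟨k', b⟩ | _ | _) h <;>
    simp_all [f]

/-- the propositional variables: time, position, fact -/
abbrev Var := ℕ × ℕ × M.DD

/-- the premise of a transition clause -/
noncomputable def prem (t : ℕ) (q : M.Q) (W : M.Win) : List (Lit M.Var) :=
  ((t, 0, .ctl q), false) ::
    (Finset.univ : Finset (Σ _ : M.K, Fin M.c)).toList.map
      (fun ki => ((t, ki.2.1, .cell ki.1 (W ki.1 ki.2)), false))

/-- the transition clauses at time `t` -/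
noncomputable def trans1 (H t : ℕ) (q : M.Q) (W : M.Win) : CNF M.Var :=
  [M.prem t q W ++ [((t + 1, 0, .ctl (M.δ q (M.tops W)).1), true)]] ++
  (Finset.univ : Finset M.K).toList.flatMap (fun k =>
    (List.range ((M.δ q (M.tops W)).2 k).length).map (fun i =>
      M.prem t q W ++ [((t + 1, i, .cell k (((M.δ q (M.tops W)).2 k)[i]?)), true)]) ++
    (Finset.univ : Finset (Option (M.G k))).toList.flatMap (fun a =>
      (List.range H).map (fun j =>
        M.prem t q W ++ [((t, (M.tops W k).length + j, .cell k a), false),
          ((t + 1, ((M.δ q (M.tops W)).2 k).length + j, .cell k a), true)])))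

/-- all transition clauses -/
noncomputable def transF (T H : ℕ) : CNF M.Var :=
  (List.range T).flatMap (fun t =>
    (Finset.univ : Finset (M.Q × M.Win)).toList.flatMap (fun qW => M.trans1 H t qW.1 qW.2))

/-- the code of the guessed word -/
def vw (w : List Bool) : List Bool := w.flatMap (fun b => [true, b, false])

theorem vw_0 (w : List Bool) (j : ℕ) : (vw w)[3 * j]? = w[j]?.map (fun _ => true) := by
  induction w generalizing j with
  | nil => simp [vw]
  | cons b w ih =>
    cases j with
    | zero => simp [vw]
    | succ j =>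
      have : 3 * (j + 1) = 3 * j + 1 + 1 + 1 := by ring
      rw [this]
      simpa [vw] using ih j

theorem vw_1 (w : List Bool) (j : ℕ) : (vw w)[3 * j + 1]? = w[j]? := by
  induction w generalizing j with
  | nil => simp [vw]
  | cons b w ih =>
    cases j with
    | zero => simp [vw]
    | succ j =>
      have : 3 * (j + 1) + 1 = 3 * j + 1 + 1 + 1 + 1 := by ring
      rw [this]
      simpa [vw] using ih j

theorem vw_2 (w : List Bool) (j : ℕ) : (vw w)[3 * j + 2]? = w[j]?.map (fun _ => false) := by
  induction w generalizing j with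
  | nil => simp [vw]
  | cons b w ih =>
    cases j with
    | zero => simp [vw]
    | succ j =>
      have : 3 * (j + 1) + 2 = 3 * j + 2 + 1 + 1 + 1 := by ring
      rw [this]
      simpa [vw] using ih j

theorem length_vw (w : List Bool) : (vw w).length = 3 * w.length := by
  induction w with
  | nil => rfl
  | cons b w ih =>
    have : vw (b :: w) = [true, b, false] ++ vw w := rfl
    rw [this, List.length_append, ih]
    simp
    ring

variable (k₀ : M.K) (q₀ : M.Q) (inG : Bool → M.G k₀)

/-- the initial configuration for the fixed part `d` and the guess `w` -/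
def initC (d w : List Bool) : M.Cfg :=
  (q₀, Function.update (fun k => ([] : List (M.G k))) k₀ ((d ++ vw w).map inG))

/-- the clauses for the cells of the guessed word -/
noncomputable def initB (d : List Bool) (j : ℕ) : CNF M.Var :=
  [[((0, j + 1, .wa), false), ((0, j, .wa), true)],
     [((0, j, .wa), false), ((0, d.length + 3 * j, .cell k₀ (some (inG true))), true)],
     [((0, j, .wa), false), ((0, j, .wb), false),
        ((0, d.length + 3 * j + 1, .cell k₀ (some (inG true))), true)],
     [((0, j, .wa), false), ((0, j, .wb), true),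
        ((0, d.length + 3 * j + 1, .cell k₀ (some (inG false))), true)],
     [((0, j, .wa), false), ((0, d.length + 3 * j + 2, .cell k₀ (some (inG false))), true)],
     [((0, j, .wa), true), ((0, d.length + 3 * j, .cell k₀ none), true)],
     [((0, j, .wa), true), ((0, d.length + 3 * j + 1, .cell k₀ none), true)],
     [((0, j, .wa), true), ((0, d.length + 3 * j + 2, .cell k₀ none), true)]]

/-- the clauses for the initial configuration -/
noncomputable def initF (N H : ℕ) (d : List Bool) : CNF M.Var :=
  ([[((0, 0, .ctl q₀), true)]] : CNF M.Var) ++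
  (((Finset.univ : Finset M.K).filter (· ≠ k₀)).toList.flatMap (fun k =>
    (List.range H).map (fun i => [((0, i, .cell k none), true)])) : CNF M.Var) ++
  ((List.range d.length).map (fun i => [((0, i, .cell k₀ (some (inG (d.getD i false)))), true)]) :
    CNF M.Var) ++
  ((List.range N).flatMap (fun j => M.initB k₀ inG d j) : CNF M.Var) ++
  ((List.range H).map (fun i => [((0, d.length + 3 * N + i, .cell k₀ none), true)]) : CNF M.Var)

open Classical in
/-- the clauses for acceptance -/
noncomputable def finalF (k₁ : M.K) (acc : M.G k₁ → Prop) (T : ℕ) : CNF M.Var :=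
  ((Finset.univ : Finset (M.G k₁)).filter (fun g => ¬ acc g)).toList.map
    (fun g => [((T, 0, .cell k₁ (some g)), false)])

/-- the Cook–Levin formula -/
noncomputable def formula (k₁ : M.K) (acc : M.G k₁ → Prop) (T N H : ℕ) (d : List Bool) :
    CNF M.Var :=
  M.initF k₀ q₀ inG N H d ++ M.transF T H ++ M.finalF k₁ acc T

/-- satisfaction -/
def Sat {ν : Type} (τ : ν → Bool) (φ : CNF ν) : Prop := ∀ c ∈ φ, ∃ l ∈ c, τ l.1 = l.2

theorem sat_append {ν : Type} {τ : ν → Bool} {φ ψ : CNF ν} :
    Sat τ (φ ++ ψ) ↔ Sat τ φ ∧ Sat τ ψ := by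
  simp only [Sat, List.mem_append]
  constructor
  · intro h
    exact ⟨fun c hc => h c (Or.inl hc), fun c hc => h c (Or.inr hc)⟩
  · rintro ⟨h1, h2⟩ c (hc | hc)
    · exact h1 c hc
    · exact h2 c hc

theorem sat_flatMap {ν α : Type} {τ : ν → Bool} {l : List α} {f : α → CNF ν} :
    Sat τ (l.flatMap f) ↔ ∀ a ∈ l, Sat τ (f a) := by
  simp only [Sat, List.mem_flatMap]
  constructor
  · intro h a ha c hc
    exact h c ⟨a, ha, hc⟩
  · rintro h c ⟨a, ha, hc⟩
    exact h a ha c hc

theorem sat_map {ν α : Type} {τ : ν → Bool} {l : List α} {f : α → List (Lit ν)} :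
    Sat τ (l.map f) ↔ ∀ a ∈ l, ∃ x ∈ f a, τ x.1 = x.2 := by
  simp only [Sat, List.mem_map]
  constructor
  · intro h a ha
    exact h _ ⟨a, ha, rfl⟩
  · rintro h c ⟨a, ha, rfl⟩
    exact h a ha

theorem sat_cons {ν : Type} {τ : ν → Bool} {c : List (Lit ν)} {φ : CNF ν} :
    Sat τ (c :: φ) ↔ (∃ x ∈ c, τ x.1 = x.2) ∧ Sat τ φ := by
  simp [Sat]

theorem sat_nil {ν : Type} {τ : ν → Bool} : Sat τ ([] : CNF ν) := by simp [Sat]

/-- the facts about the positions `< P` of the configuration `C` hold at time `t` -/
def Facts (τ : M.Var → Bool) (t P : ℕ) (C : M.Cfg) : Prop :=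
  τ (t, 0, .ctl C.1) = true ∧ ∀ k, ∀ i < P, τ (t, i, .cell k ((C.2 k)[i]?)) = true

variable {M}

theorem exists_prem {τ : M.Var → Bool} {t : ℕ} {q : M.Q} {W : M.Win} :
    (∃ x ∈ M.prem t q W, τ x.1 = x.2) ↔
      ¬ (τ (t, 0, .ctl q) = true ∧ ∀ k, ∀ i : Fin M.c, τ (t, i.1, .cell k (W k i)) = true) := by
  simp only [prem, List.mem_cons, List.mem_map, Finset.mem_toList, Finset.mem_univ, true_and]
  constructor
  · rintro ⟨x, (rfl | ⟨⟨k, i⟩, rfl⟩), hx⟩ ⟨h1, h2⟩
    · simp [h1] at hx
    · have := h2 k i
      simp [this] at hx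
  · intro h
    by_cases h1 : τ (t, 0, .ctl q) = true
    · have h2 : ¬ ∀ k, ∀ i : Fin M.c, τ (t, i.1, .cell k (W k i)) = true := fun h2 => h ⟨h1, h2⟩
      push Not at h2
      obtain ⟨k, i, hki⟩ := h2
      exact ⟨_, Or.inr ⟨⟨k, i⟩, rfl⟩, by simpa using hki⟩
    · exact ⟨_, Or.inl rfl, by simpa using h1⟩

theorem facts_next {τ : M.Var → Bool} {T H : ℕ} (hτ : Sat τ (M.transF T H)) {t P : ℕ}
    (ht : t < T) (hP : M.c ≤ P) (hPH : P ≤ H) {C : M.Cfg} (hC : M.Facts τ t P C) :
    M.Facts τ (t + 1) (P - M.c) (M.next C) := by
  rw [transF, sat_flatMap] at hτ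
  have h1 := hτ t (List.mem_range.2 ht)
  rw [sat_flatMap] at h1
  have h2 := h1 (C.1, M.win C.2) (by simp)
  simp only [trans1, tops_win] at h2
  rw [sat_append, sat_flatMap] at h2
  obtain ⟨h3, h4⟩ := h2
  have hprem : ¬ ∃ x ∈ M.prem t C.1 (M.win C.2), τ x.1 = x.2 := by
    rw [exists_prem, not_not]
    exact ⟨hC.1, fun k i => hC.2 k i (by omega)⟩
  refine ⟨?_, fun k i hi => ?_⟩
  · rw [sat_cons] at h3
    obtain ⟨⟨x, hx, hx'⟩, -⟩ := h3
    rcases List.mem_append.1 hx with hx | hx
    · exact absurd ⟨x, hx, hx'⟩ hprem
    · simp only [List.mem_singleton] at hx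
      subst hx
      exact hx'
  · have h5 := h4 k (by simp)
    rw [sat_append, sat_map, sat_flatMap] at h5
    obtain ⟨h6, h7⟩ := h5
    simp only [next]
    set r := M.δ C.1 (fun k => (C.2 k).take M.c) with hr
    by_cases hi' : i < (r.2 k).length
    · obtain ⟨x, hx, hx'⟩ := h6 i (List.mem_range.2 hi')
      rcases List.mem_append.1 hx with hx | hx
      · exact absurd ⟨x, hx, hx'⟩ hprem
      · simp only [List.mem_singleton] at hx
        subst hx
        rw [List.getElem?_append_left hi']
        exact hx'
    · obtain ⟨j, rfl⟩ := Nat.exists_eq_add_of_le (not_lt.1 hi')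
      rw [List.getElem?_append_right (by omega), Nat.add_sub_cancel_left]
      have h8 := h7 (((C.2 k).drop M.c)[j]?) (by simp)
      rw [sat_map] at h8
      obtain ⟨x, hx, hx'⟩ := h8 j (List.mem_range.2 (by omega))
      rcases List.mem_append.1 hx with hx | hx
      · exact absurd ⟨x, hx, hx'⟩ hprem
      · simp only [List.mem_cons, List.not_mem_nil, or_false] at hx
        rcases hx with rfl | rfl
        · exfalso
          have h9 := hC.2 k (((C.2 k).take M.c).length + j) (by
            rw [List.length_take]; omega)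
          have h10 : (C.2 k)[((C.2 k).take M.c).length + j]? = ((C.2 k).drop M.c)[j]? := by
            rw [List.length_take, List.getElem?_drop]
            rcases le_total M.c (C.2 k).length with h | h
            · rw [min_eq_left h]
            · rw [min_eq_right h, List.getElem?_eq_none (by omega),
                List.getElem?_eq_none (by omega)]
          rw [h10] at h9
          simp only at hx'
          rw [hx'] at h9
          exact absurd h9 (by simp)
        · exact hx'

theorem facts_iterate {τ : M.Var → Bool} {T H : ℕ} (hτ : Sat τ (M.transF T H)) {P : ℕ}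
    (hPH : P ≤ H) {C : M.Cfg} (hC : M.Facts τ 0 P C) :
    ∀ t ≤ T, M.c * t ≤ P → M.Facts τ t (P - M.c * t) (M.next^[t] C) := by
  intro t
  induction t with
  | zero => intro _ _; simpa using hC
  | succ t ih =>
    intro ht hP
    rw [Nat.mul_succ] at hP
    have h1 := ih (by omega) (by omega)
    have h2 := facts_next hτ (t := t) (by omega) (by omega) (by omega) h1
    rw [Function.iterate_succ_apply']
    have e : P - M.c * (t + 1) = P - M.c * t - M.c := by
      rw [Nat.mul_succ]; omega
    rw [e]
    exact h2

theorem sat_singleton_clause {ν : Type} {τ : ν → Bool} {v : ν} {b : Bool} :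
    (∃ x ∈ ([(v, b)] : List (Lit ν)), τ x.1 = x.2) ↔ τ v = b := by simp

theorem sat_pair_clause {ν : Type} {τ : ν → Bool} {v v' : ν} {b b' : Bool} :
    (∃ x ∈ ([(v, b), (v', b')] : List (Lit ν)), τ x.1 = x.2) ↔ (τ v = b ∨ τ v' = b') := by simp

theorem sat_triple_clause {ν : Type} {τ : ν → Bool} {v v' v'' : ν} {b b' b'' : Bool} :
    (∃ x ∈ ([(v, b), (v', b'), (v'', b'')] : List (Lit ν)), τ x.1 = x.2) ↔
      (τ v = b ∨ τ v' = b' ∨ τ v'' = b'') := by simp

variable {k₀ q₀ inG}

theorem initF_iff {τ : M.Var → Bool} {N H : ℕ} {d : List Bool} :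
    Sat τ (M.initF k₀ q₀ inG N H d) ↔
      τ (0, 0, .ctl q₀) = true ∧
      (∀ k ≠ k₀, ∀ i < H, τ (0, i, .cell k none) = true) ∧
      (∀ i < d.length, τ (0, i, .cell k₀ (some (inG (d.getD i false)))) = true) ∧
      (∀ j < N,
        (τ (0, j + 1, .wa) = false ∨ τ (0, j, .wa) = true) ∧
        (τ (0, j, .wa) = false ∨ τ (0, d.length + 3 * j, .cell k₀ (some (inG true))) = true) ∧
        (τ (0, j, .wa) = false ∨ τ (0, j, .wb) = false ∨
          τ (0, d.length + 3 * j + 1, .cell k₀ (some (inG true))) = true) ∧
        (τ (0, j, .wa) = false ∨ τ (0, j, .wb) = true ∨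
          τ (0, d.length + 3 * j + 1, .cell k₀ (some (inG false))) = true) ∧
        (τ (0, j, .wa) = false ∨ τ (0, d.length + 3 * j + 2, .cell k₀ (some (inG false))) = true) ∧
        (τ (0, j, .wa) = true ∨ τ (0, d.length + 3 * j, .cell k₀ none) = true) ∧
        (τ (0, j, .wa) = true ∨ τ (0, d.length + 3 * j + 1, .cell k₀ none) = true) ∧
        (τ (0, j, .wa) = true ∨ τ (0, d.length + 3 * j + 2, .cell k₀ none) = true)) ∧
      (∀ i < H, τ (0, d.length + 3 * N + i, .cell k₀ none) = true) := by
  rw [initF, sat_append, sat_append, sat_append, sat_append, sat_cons, sat_flatMap, sat_map,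
    sat_flatMap, sat_map]
  simp only [initB, sat_nil, and_true, sat_cons, sat_map, sat_singleton_clause, sat_pair_clause,
    sat_triple_clause, List.mem_range, Finset.mem_toList, Finset.mem_filter, Finset.mem_univ,
    true_and, and_assoc]

theorem getElem?_initC_ne {d w : List Bool} {k : M.K} (hk : k ≠ k₀) (i : ℕ) :
    ((M.initC k₀ q₀ inG d w).2 k)[i]? = none := by
  simp [initC, hk]

theorem getElem?_initC {d w : List Bool} (i : ℕ) :
    ((M.initC k₀ q₀ inG d w).2 k₀)[i]? = ((d ++ vw w)[i]?).map inG := by
  simp only [initC, Function.update_self, List.getElem?_map]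

theorem init_sound {τ : M.Var → Bool} {N H : ℕ} {d : List Bool}
    (h : Sat τ (M.initF k₀ q₀ inG N H d)) :
    ∃ w : List Bool, w.length ≤ N ∧ M.Facts τ 0 H (M.initC k₀ q₀ inG d w) := by
  rw [initF_iff] at h
  obtain ⟨h1, h2, h3, h4, h5⟩ := h
  have hex : ∃ m, N ≤ m ∨ τ (0, m, .wa) = false := ⟨N, Or.inl le_rfl⟩
  classical
  let m := Nat.find hex
  have hmN : m ≤ N := Nat.find_min' hex (Or.inl le_rfl)
  have hlt : ∀ j < m, τ (0, j, .wa) = true := by
    intro j hj
    have := Nat.find_min hex hj
    push Not at this
    simpa using this.2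
  have hge : ∀ j, m ≤ j → j < N → τ (0, j, .wa) = false := by
    intro j hj
    induction j, hj using Nat.le_induction with
    | base =>
      intro hm
      rcases Nat.find_spec hex with h | h
      · exact absurd h (by omega)
      · exact h
    | succ j hj ih =>
      intro hjN
      rcases (h4 j (by omega)).1 with h | h
      · exact h
      · rw [ih (by omega)] at h
        exact absurd h (by simp)
  let w : List Bool := (List.range m).map (fun j => τ (0, j, .wb))
  have hwlen : w.length = m := by simp [w]
  have hw : ∀ j < m, w[j]? = some (τ (0, j, .wb)) := by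
    intro j hj
    simp [w, hj]
  have hw' : ∀ j, m ≤ j → w[j]? = none := by
    intro j hj
    rw [List.getElem?_eq_none_iff]
    omega
  refine ⟨w, by omega, h1, fun k i hi => ?_⟩
  by_cases hk : k = k₀
  · subst hk
    rw [getElem?_initC]
    by_cases hid : i < d.length
    · rw [List.getElem?_append_left hid]
      have := h3 i hid
      rw [List.getD_eq_getElem?_getD, List.getElem?_eq_getElem hid] at this
      rw [List.getElem?_eq_getElem hid]
      exact this
    · rw [List.getElem?_append_right (by omega)]
      obtain ⟨i', rfl⟩ := Nat.exists_eq_add_of_le (not_lt.1 hid)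
      rw [Nat.add_sub_cancel_left]
      by_cases hiN : i' < 3 * N
      · obtain ⟨j, r, hr, rfl⟩ : ∃ j r, r < 3 ∧ i' = 3 * j + r :=
          ⟨i' / 3, i' % 3, Nat.mod_lt _ (by norm_num), by omega⟩
        have hjN : j < N := by omega
        obtain ⟨-, c1, c2, c3, c4, c5, c6, c7⟩ := h4 j hjN
        by_cases hjm : j < m
        · have ha := hlt j hjm
          simp only [ha, Bool.true_eq_false, false_or] at c1 c2 c3 c4
          interval_cases r
          · rw [Nat.add_zero, vw_0, hw j hjm]
            exact c1
          · rw [vw_1, hw j hjm, ← Nat.add_assoc]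
            cases hb : τ (0, j, .wb) with
            | true =>
              simp only [hb, Bool.true_eq_false, false_or] at c2
              exact c2
            | false =>
              simp only [hb, Bool.false_eq_true, false_or] at c3
              exact c3
          · rw [vw_2, hw j hjm, ← Nat.add_assoc]
            exact c4
        · have ha := hge j (by omega) hjN
          simp only [ha, Bool.false_eq_true, false_or] at c5 c6 c7
          interval_cases r
          · rw [Nat.add_zero, vw_0, hw' j (by omega)]
            exact c5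
          · rw [vw_1, hw' j (by omega), ← Nat.add_assoc]
            exact c6
          · rw [vw_2, hw' j (by omega), ← Nat.add_assoc]
            exact c7
      · obtain ⟨i'', rfl⟩ := Nat.exists_eq_add_of_le (not_lt.1 hiN)
        have : (vw w)[3 * N + i'']? = none := by
          rw [List.getElem?_eq_none_iff, length_vw]
          omega
        rw [this, ← Nat.add_assoc]
        exact h5 i'' (by omega)
  · rw [getElem?_initC_ne hk]
    exact h2 k hk i hi

/-- the acceptance condition at time `T` -/
def Acc (k₁ : M.K) (acc : M.G k₁ → Prop) (C : M.Cfg) : Prop :=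
  ∀ g, (C.2 k₁)[0]? = some g → acc g

theorem formula_sound {k₁ : M.K} {acc : M.G k₁ → Prop} {T N H : ℕ} {d : List Bool}
    (hH : M.c * T < H) (h : (M.formula k₀ q₀ inG k₁ acc T N H d).Satisfiable) :
    ∃ w : List Bool, w.length ≤ N ∧ Acc k₁ acc (M.next^[T] (M.initC k₀ q₀ inG d w)) := by
  obtain ⟨τ, hτ⟩ := h
  change Sat τ _ at hτ
  rw [formula, sat_append, sat_append] at hτ
  obtain ⟨⟨h1, h2⟩, h3⟩ := hτ
  obtain ⟨w, hw, hf⟩ := init_sound h1
  refine ⟨w, hw, ?_⟩
  have h4 := facts_iterate h2 le_rfl hf T le_rfl hH.le
  intro g hg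
  by_contra hacc
  have h5 := h4.2 k₁ 0 (by omega)
  rw [hg] at h5
  rw [finalF, sat_map] at h3
  have h6 := h3 g (by simpa using hacc)
  rw [sat_singleton_clause] at h6
  rw [h6] at h5
  exact absurd h5 (by simp)

open Classical in
/-- the truth assignment of a computation -/
noncomputable def asg (C : ℕ → M.Cfg) (w : List Bool) : M.Var → Bool
  | (t, _, .ctl q) => decide ((C t).1 = q)
  | (t, i, .cell k a) => decide (((C t).2 k)[i]? = a)
  | (_, i, .wa) => decide (i < w.length)
  | (_, i, .wb) => decide (w[i]? = some true)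

theorem init_complete {N H : ℕ} {d w : List Bool} (hw : w.length ≤ N) (C : ℕ → M.Cfg)
    (hC : C 0 = M.initC k₀ q₀ inG d w) : Sat (asg C w) (M.initF k₀ q₀ inG N H d) := by
  rw [initF_iff]
  refine ⟨?_, ?_, ?_, ?_, ?_⟩
  · simp [asg, hC, initC]
  · intro k hk i _
    simp [asg, hC, getElem?_initC_ne hk]
  · intro i hi
    simp [asg, hC, getElem?_initC, List.getElem?_append_left hi, List.getElem?_eq_getElem hi]
  · intro j hj
    have e0 : ((M.initC k₀ q₀ inG d w).2 k₀)[d.length + 3 * j]? =
        (w[j]?.map (fun _ => true)).map inG := by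
      rw [getElem?_initC, List.getElem?_append_right (by omega), Nat.add_sub_cancel_left, vw_0]
    have e1 : ((M.initC k₀ q₀ inG d w).2 k₀)[d.length + 3 * j + 1]? =
        (w[j]?).map inG := by
      rw [getElem?_initC, List.getElem?_append_right (by omega), Nat.add_assoc,
        Nat.add_sub_cancel_left, vw_1]
    have e2 : ((M.initC k₀ q₀ inG d w).2 k₀)[d.length + 3 * j + 2]? =
        (w[j]?.map (fun _ => false)).map inG := by
      rw [getElem?_initC, List.getElem?_append_right (by omega), Nat.add_assoc,
        Nat.add_sub_cancel_left, vw_2]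
    simp only [asg, hC, e0, e1, e2, decide_eq_true_eq, decide_eq_false_iff_not]
    by_cases hjw : j < w.length
    · rw [List.getElem?_eq_getElem hjw]
      refine ⟨Or.inr hjw, Or.inr rfl, ?_, ?_, Or.inr rfl, Or.inl hjw, Or.inl hjw, Or.inl hjw⟩
      · right
        cases hb : w[j] <;> simp
      · right
        cases hb : w[j] <;> simp
    · have : w[j]? = none := by rw [List.getElem?_eq_none_iff]; omega
      rw [this]
      refine ⟨Or.inl (by omega), Or.inl hjw, Or.inl hjw, Or.inl hjw, Or.inl hjw, Or.inr rfl,
        Or.inr rfl, Or.inr rfl⟩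
  · intro i _
    have : (d ++ vw w)[d.length + 3 * N + i]? = none := by
      rw [List.getElem?_eq_none_iff, List.length_append, length_vw]
      omega
    simp [asg, hC, getElem?_initC, this]

theorem trans_complete {T H : ℕ} {w : List Bool} (C : ℕ → M.Cfg)
    (hC : ∀ t, C (t + 1) = M.next (C t)) : Sat (asg C w) (M.transF T H) := by
  classical
  rw [transF, sat_flatMap]
  intro t _
  rw [sat_flatMap]
  rintro ⟨q, W⟩ _
  simp only
  by_cases hprem : ∃ x ∈ M.prem t q W, asg C w x.1 = x.2
  · -- all clauses contain the premise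
    intro cl hcl
    obtain ⟨x, hx, hx'⟩ := hprem
    refine ⟨x, ?_, hx'⟩
    simp only [trans1, List.mem_append, List.mem_singleton, List.mem_flatMap, List.mem_map] at hcl
    rcases hcl with rfl | ⟨k, -, ⟨i, -, rfl⟩ | ⟨a, -, j, -, rfl⟩⟩
    · exact List.mem_append_left _ hx
    · exact List.mem_append_left _ hx
    · exact List.mem_append_left _ hx
  · rw [exists_prem, not_not] at hprem
    obtain ⟨h1, h2⟩ := hprem
    have hq : (C t).1 = q := by simpa [asg] using h1
    have hW : M.win (C t).2 = W := by
      funext k i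
      have := h2 k i
      simp only [asg, decide_eq_true_eq] at this
      exact this
    subst hq hW
    rw [trans1, sat_append, sat_cons, sat_flatMap]
    have hn : C (t + 1) = M.next (C t) := hC t
    simp only [tops_win] at *
    refine ⟨⟨?_, sat_nil⟩, fun k _ => ?_⟩
    · refine ⟨_, List.mem_append_right _ (List.mem_singleton.2 rfl), ?_⟩
      simp [asg, hn, next]
    · rw [sat_append, sat_map, sat_flatMap]
      constructor
      · intro i hi
        rw [List.mem_range] at hi
        refine ⟨_, List.mem_append_right _ (List.mem_singleton.2 rfl), ?_⟩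
        simp only [asg, hn, next, decide_eq_true_eq]
        rw [List.getElem?_append_left hi]
      · intro a _
        rw [sat_map]
        intro j _
        by_cases ha : ((C t).2 k)[((C t).2 k).take M.c |>.length |> (· + j)]? = a
        · refine ⟨((t + 1, ((M.δ (C t).1 (fun k => ((C t).2 k).take M.c)).2 k).length + j,
            .cell k a), true), List.mem_append_right _ (by simp), ?_⟩
          simp only [asg, hn, next, decide_eq_true_eq]
          rw [List.getElem?_append_right (by omega), Nat.add_sub_cancel_left, ← ha]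
          simp only [List.length_take]
          rw [List.getElem?_drop]
          rcases le_total M.c ((C t).2 k).length with h | h
          · rw [min_eq_left h]
          · rw [min_eq_right h, List.getElem?_eq_none (by omega),
              List.getElem?_eq_none (by omega)]
        · refine ⟨((t, (((C t).2 k).take M.c).length + j, .cell k a), false),
            List.mem_append_right _ (by simp), ?_⟩
          simp only [asg, decide_eq_false_iff_not]
          exact ha

theorem formula_complete {k₁ : M.K} {acc : M.G k₁ → Prop} {T N H : ℕ} {d w : List Bool}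
    (hw : w.length ≤ N) (h : Acc k₁ acc (M.next^[T] (M.initC k₀ q₀ inG d w))) :
    (M.formula k₀ q₀ inG k₁ acc T N H d).Satisfiable := by
  refine ⟨asg (fun t => M.next^[t] (M.initC k₀ q₀ inG d w)) w, ?_⟩
  change Sat _ _
  rw [formula, sat_append, sat_append]
  refine ⟨⟨init_complete hw _ rfl, trans_complete _ (fun t => Function.iterate_succ_apply' _ _ _)⟩,
    ?_⟩
  rw [finalF, sat_map]
  intro g hg
  rw [sat_singleton_clause]
  simp only [Finset.mem_toList, Finset.mem_filter, Finset.mem_univ, true_and] at hg
  simp only [asg, decide_eq_false_iff_not]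
  intro h'
  exact hg (h g h')

/-- The Cook–Levin formula is satisfiable if and only if some guess leads to acceptance. -/
theorem formula_iff {k₁ : M.K} {acc : M.G k₁ → Prop} {T N H : ℕ} {d : List Bool}
    (hH : M.c * T < H) :
    (M.formula k₀ q₀ inG k₁ acc T N H d).Satisfiable ↔
      ∃ w : List Bool, w.length ≤ N ∧ Acc k₁ acc (M.next^[T] (M.initC k₀ q₀ inG d w)) :=
  ⟨formula_sound hH, fun ⟨_, hw, h⟩ => formula_complete hw h⟩

end WM

end Pool.Agent.PartSep.CL
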