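import Pool.Agent.Lib_MP_42fe4d_lc.TM.Lite
import Pool.Agent.Lib_MP_42fe4d_lc.CL.WM

/-!
# The Cook–Levin formula is computed in polynomial time
-/

namespace Pool.Agent.PartSep.CL

open TM Rep WM

set_option synthInstance.maxSize 2000

/-- finite types are represented by numbers -/
@[reducible]
noncomputable def repFin (α : Type) [Finite α] : Rep α where
  ix := Unit
  rep a _ := List.replicate ((@Fintype.equivFin α (Fintype.ofFinite α)) a).1 Sym.i

theorem repFin_injective {α : Type} [Finite α] {a b : α}
    (h : (repFin α).rep a () = (repFin α).rep b ()) : a = b := by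
  have h1 := congrArg List.length h
  change (List.replicate _ _).length = (List.replicate _ _).length at h1
  rw [List.length_replicate, List.length_replicate] at h1
  exact (@Fintype.equivFin α (Fintype.ofFinite α)).injective (Fin.ext h1)

noncomputable instance (M : WM) : Rep M.DD := repFin M.DD

variable {E F G : Type} [Rep E] [Rep F] [Rep G] {M : WM}

theorem flatMapConst {ι : Type} (L : List ι) {g : ι → E → List F} [Inhabited F]
    (hg : ∀ a, FP (g a)) : FP (fun x => L.flatMap (fun a => g a x)) := by
  induction L with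
  | nil => exact FP.const _
  | cons a L ih => exact FP.appendE (hg a) ih

theorem mapConst {ι : Type} (L : List ι) {g : ι → E → F} [Inhabited F]
    (hg : ∀ a, FP (g a)) : FP (fun x => L.map (fun a => g a x)) := by
  induction L with
  | nil => exact FP.const _
  | cons a L ih => exact FP.consE (hg a) ih

theorem fp_lit {t i : E → ℕ} (ht : FP t) (hi : FP i) (d : M.DD) (b : Bool) :
    FP (fun x => (((t x, i x, d), b) : Lit M.Var)) :=
  FP.pair (FP.pair ht (FP.pair hi (FP.const d))) (FP.const b)

instance : Inhabited (Lit M.Var) := ⟨((0, 0, DD.wa), true)⟩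

theorem fp_prem {t : E → ℕ} (ht : FP t) (q : M.Q) (W : M.Win) :
    FP (fun x => M.prem (t x) q W) := by
  unfold WM.prem
  exact FP.consE (fp_lit ht (FP.const 0) _ _) (mapConst _ (fun ki => fp_lit ht (FP.const _) _ _))

theorem fp_trans1 {t H : E → ℕ} (ht : FP t) (hH : FP H) (q : M.Q) (W : M.Win) :
    FP (fun x => M.trans1 (H x) (t x) q W) := by
  unfold WM.trans1
  refine FP.appendE (FP.consE (FP.appendE (fp_prem ht q W)
    (FP.consE (fp_lit (FP.add ht (FP.const 1)) (FP.const 0) _ _) (FP.const []))) (FP.const [])) ?_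
  refine flatMapConst _ (fun k => ?_)
  refine FP.appendE ?_ ?_
  · refine mapConst _ (fun i => ?_)
    exact FP.appendE (fp_prem ht q W)
      (FP.consE (fp_lit (FP.add ht (FP.const 1)) (FP.const i) _ _) (FP.const []))
  · refine flatMapConst _ (fun a => ?_)
    refine FP.mapE (FP.range hH) (g := fun y : E × ℕ => M.prem (t y.1) q W ++
      [((t y.1, (M.tops W k).length + y.2, DD.cell k a), false),
          ((t y.1 + 1, ((M.δ q (M.tops W)).2 k).length + y.2, DD.cell k a), true)]) ?_
    have ht' : FP (fun y : E × ℕ => t y.1) := FP.comp ht FP.fst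
    exact FP.appendE (fp_prem ht' q W)
      (FP.consE (fp_lit ht' (FP.add (FP.const _) FP.snd) _ _)
        (FP.consE (fp_lit (FP.add ht' (FP.const 1)) (FP.add (FP.const _) FP.snd) _ _)
          (FP.const [])))

theorem fp_transF {T H : E → ℕ} (hT : FP T) (hH : FP H) :
    FP (fun x => M.transF (T x) (H x)) := by
  unfold WM.transF
  refine FP.flatMapE (FP.range hT) (g := fun y : E × ℕ =>
    (Finset.univ : Finset (M.Q × M.Win)).toList.flatMap
      (fun qW => M.trans1 (H y.1) y.2 qW.1 qW.2)) ?_
  exact flatMapConst _ (fun qW => fp_trans1 FP.snd (FP.comp hH FP.fst) _ _)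

theorem fp_drop {s : E → List Sym} (hs : FP s) {i : E → ℕ} (hi : FP i) :
    FP (fun x => (s x).drop (i x)) := by
  have := FP.natRec_growth hi hs (step := fun y => y.2.tail) (FP.tail FP.snd) 0 (by
    intro x s
    simp [size_list])
  refine this.congr (fun x => ?_)
  simp only
  generalize s x = m
  induction i x generalizing m with
  | zero => rfl
  | succ k ih => rw [Function.iterate_succ_apply, ih]; simp

theorem getD_map_sb (s : List Sym) (i : ℕ) :
    (s.map sb).getD i false = decide ((s.drop i).head? = some Sym.i) := by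
  rw [List.head?_drop, List.getD_eq_getElem?_getD, List.getElem?_map]
  cases s[i]? with
  | none => simp
  | some a => simp [sb]

variable {k₀ : M.K} {q₀ : M.Q} {inG : Bool → M.G k₀}

theorem fp_initF {N H : E → ℕ} {s : E → List Sym} (hN : FP N) (hH : FP H) (hs : FP s) :
    FP (fun x => M.initF k₀ q₀ inG (N x) (H x) ((s x).map sb)) := by
  unfold WM.initF WM.initB
  simp only [List.length_map]
  have h0 : ∀ {E' : Type} [Rep E'], FP (fun _ : E' => (0 : ℕ)) := fun {E'} _ => FP.const 0
  refine FP.appendE (FP.appendE (FP.appendE (FP.appendE ?_ ?_) ?_) ?_) ?_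
  · exact FP.const _
  · refine flatMapConst _ (fun k => ?_)
    refine FP.mapE (FP.range hH) (g := fun y : E × ℕ => [((0, y.2, DD.cell k none), true)]) ?_
    exact FP.consE (fp_lit h0 FP.snd _ _) (FP.const [])
  · refine FP.mapE (FP.range (FP.length hs)) (g := fun y : E × ℕ =>
      [((0, y.2, DD.cell k₀ (some (inG (((s y.1).map sb).getD y.2 false)))), true)]) ?_
    refine FP.consE ?_ (FP.const [])
    refine (FP.ite (p := fun y : E × ℕ => decide (((s y.1).drop y.2).head? = some Sym.i))
      (FP.headIs (fp_drop (FP.comp hs FP.fst) FP.snd) Sym.i)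
      (fp_lit h0 FP.snd (DD.cell k₀ (some (inG true))) true)
      (fp_lit h0 FP.snd (DD.cell k₀ (some (inG false))) true)).congr (fun y => ?_)
    rw [getD_map_sb]
    cases decide (((s y.1).drop y.2).head? = some Sym.i) <;> rfl
  · refine FP.flatMapE (FP.range hN) (g := fun y : E × ℕ =>
      [[((0, y.2 + 1, DD.wa), false), ((0, y.2, DD.wa), true)],
       [((0, y.2, DD.wa), false), ((0, (s y.1).length + 3 * y.2, DD.cell k₀ (some (inG true))), true)],
       [((0, y.2, DD.wa), false), ((0, y.2, DD.wb), false),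
          ((0, (s y.1).length + 3 * y.2 + 1, DD.cell k₀ (some (inG true))), true)],
       [((0, y.2, DD.wa), false), ((0, y.2, DD.wb), true),
          ((0, (s y.1).length + 3 * y.2 + 1, DD.cell k₀ (some (inG false))), true)],
       [((0, y.2, DD.wa), false),
          ((0, (s y.1).length + 3 * y.2 + 2, DD.cell k₀ (some (inG false))), true)],
       [((0, y.2, DD.wa), true), ((0, (s y.1).length + 3 * y.2, DD.cell k₀ none), true)],
       [((0, y.2, DD.wa), true), ((0, (s y.1).length + 3 * y.2 + 1, DD.cell k₀ none), true)],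
       [((0, y.2, DD.wa), true), ((0, (s y.1).length + 3 * y.2 + 2, DD.cell k₀ none), true)]]) ?_
    have hy : FP (fun y : E × ℕ => y.2) := FP.snd
    have hp : FP (fun y : E × ℕ => (s y.1).length + 3 * y.2) :=
      FP.add (FP.length (FP.comp hs FP.fst)) (FP.mulConst FP.snd 3)
    have hp1 := FP.add hp (FP.const 1)
    have hp2 := FP.add hp (FP.const 2)
    have hy1 := FP.add hy (FP.const 1)
    have hn : FP (fun _ : E × ℕ => ([] : List (Lit M.Var))) := FP.const []
    exact FP.consE (FP.consE (fp_lit h0 hy1 _ _) (FP.consE (fp_lit h0 hy _ _) hn)) <|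
      FP.consE (FP.consE (fp_lit h0 hy _ _) (FP.consE (fp_lit h0 hp _ _) hn)) <|
      FP.consE (FP.consE (fp_lit h0 hy _ _) (FP.consE (fp_lit h0 hy _ _)
        (FP.consE (fp_lit h0 hp1 _ _) hn))) <|
      FP.consE (FP.consE (fp_lit h0 hy _ _) (FP.consE (fp_lit h0 hy _ _)
        (FP.consE (fp_lit h0 hp1 _ _) hn))) <|
      FP.consE (FP.consE (fp_lit h0 hy _ _) (FP.consE (fp_lit h0 hp2 _ _) hn)) <|
      FP.consE (FP.consE (fp_lit h0 hy _ _) (FP.consE (fp_lit h0 hp _ _) hn)) <|
      FP.consE (FP.consE (fp_lit h0 hy _ _) (FP.consE (fp_lit h0 hp1 _ _) hn)) <|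
      FP.consE (FP.consE (fp_lit h0 hy _ _) (FP.consE (fp_lit h0 hp2 _ _) hn)) (FP.const [])
  · refine FP.mapE (FP.range hH) (g := fun y : E × ℕ =>
      [((0, (s y.1).length + 3 * N y.1 + y.2, DD.cell k₀ none), true)]) ?_
    exact FP.consE (fp_lit h0 (FP.add (FP.add (FP.length (FP.comp hs FP.fst))
      (FP.mulConst (FP.comp hN FP.fst) 3)) FP.snd) _ _) (FP.const [])

theorem fp_finalF {k₁ : M.K} {acc : M.G k₁ → Prop} {T : E → ℕ} (hT : FP T) :
    FP (fun x => M.finalF k₁ acc (T x)) := by
  unfold WM.finalF
  exact mapConst _ (fun g => FP.consE (fp_lit hT (FP.const 0) _ _) (FP.const []))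

theorem fp_formula {k₁ : M.K} {acc : M.G k₁ → Prop} {T N H : E → ℕ} {s : E → List Sym}
    (hT : FP T) (hN : FP N) (hH : FP H) (hs : FP s) :
    FP (fun x => M.formula k₀ q₀ inG k₁ acc (T x) (N x) (H x) ((s x).map sb)) := by
  unfold WM.formula
  exact FP.appendE (FP.appendE (fp_initF hN hH hs) (fp_transF hT hH)) (fp_finalF hT)

/-- the name of a variable -/
noncomputable def vname (v : M.Var) : Name :=
  List.replicate v.1 Sym.i ++ (Sym.o :: (List.replicate v.2.1 Sym.i ++
    (Sym.o :: (repFin M.DD).rep v.2.2 ())))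

theorem replicate_inj {a b : ℕ} {r r' : List Sym}
    (h : List.replicate a Sym.i ++ Sym.o :: r = List.replicate b Sym.i ++ Sym.o :: r') :
    a = b ∧ r = r' := by
  induction a generalizing b with
  | zero =>
    cases b with
    | zero => simpa using h
    | succ b => simp [List.replicate_succ] at h
  | succ a ih =>
    cases b with
    | zero => simp [List.replicate_succ] at h
    | succ b =>
      simp only [List.replicate_succ, List.cons_append, List.cons.injEq, true_and] at h
      have := ih h
      exact ⟨by omega, this.2⟩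

theorem vname_injective : Function.Injective (vname (M := M)) := by
  rintro ⟨t, i, d⟩ ⟨t', i', d'⟩ h
  obtain ⟨h1, h2⟩ := replicate_inj h
  obtain ⟨h3, h4⟩ := replicate_inj h2
  have h5 := repFin_injective h4
  simp only at h1 h3 h5
  rw [h1, h3, h5]

theorem fp_vname : FP (vname (M := M)) := by
  unfold vname
  refine FP.append (FP.unary FP.fst) (FP.cons _ (FP.append (FP.unary (FP.comp FP.fst FP.snd))
    (FP.cons _ ?_)))
  have h1 : FP (fun v : M.Var => v.2.2) := FP.comp FP.snd FP.snd
  exact h1.comp_rep ()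

theorem fp_rename {φ : E → CNF M.Var} (hφ : FP φ) : FP (fun x => rename vname (φ x)) := by
  unfold rename
  refine FP.mapE hφ (g := fun y : E × List (Lit M.Var) => y.2.map (fun l => (vname l.1, l.2))) ?_
  refine FP.mapE FP.snd (g := fun y : (E × List (Lit M.Var)) × Lit M.Var =>
    (vname y.2.1, y.2.2)) ?_
  exact FP.pair (FP.comp fp_vname (FP.comp FP.fst FP.snd)) (FP.comp FP.snd FP.snd)

end Pool.Agent.PartSep.CL
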