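import Pool.Agent.Lib_MP_42fe4d_lc.CL.Sim
import Pool.Agent.Lib_MP_42fe4d_lc.TM.Encode

/-!
# NP-hardness of the separation problem for partitionable graph inequalities
-/

namespace Pool.Agent.PartSep

/-- `A` solves the separation problem on the instance `s`: it outputs the empty string, and then
no partitionable graph inequality is violated, or `1` followed by the characteristic vector of a
vertex set `I` which gives a violated partitionable graph inequality. -/
def SolvesOn (A : List Bool → List Bool) (s : SepInstance) : Prop :=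
  (A (encodeInstance s) = [] ∧ ¬ ∃ I, s.Violates I) ∨
    ∃ I : Finset (Fin s.n), s.Violates I ∧
      A (encodeInstance s) = true :: List.ofFn (fun v => decide (v ∈ I))

namespace CL

open TM Rep WM N487b59b3 Turing

set_option synthInstance.maxSize 2000

/-- the code of a bit string as a string of symbols -/
def bits (l : List Sym) : List Sym := l.flatMap (fun a => [Sym.i, a, Sym.o])

theorem bits_map_bs (u : List Bool) : bits (u.map bs) = (bitEncode u).map bs := by
  rw [bitEncode_bits]
  unfold bits vw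
  rw [List.flatMap_map, List.map_flatMap]
  rfl

theorem fp_bits {E : Type} [Rep E] {l : E → List Sym} (hl : FP l) : FP (fun x => bits (l x)) :=
  FP.subst hl _

theorem isPolyTime_of_fp {f : List Bool → List Bool} {g : List Sym → List Sym} (hg : FP g)
    (h : ∀ x, g ((bitEncode x).map bs) = (f x).map bs) : N68a2faeb.IsPolyTime f := by
  refine FP.toTM2 (αΓ := Bool) (βΓ := Bool) bs sb bs sb_bs (fp_bits hg) (fun x => ?_)
  change bits (g ((bitEncode x).map bs)) = (bitEncode (f x)).map bs
  rw [h, bits_map_bs]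

theorem mem_P_of_fp {L : List Bool → Bool} {g : List Sym → List Sym} (hg : FP g)
    (h : ∀ x, g ((bitEncode x).map bs) = [bs (L x)]) : L ∈ N68a2faeb.P := by
  refine FP.toTM2 (αΓ := Bool) (βΓ := Bool) bs sb bs sb_bs hg (fun x => ?_)
  exact h x

/-- the reduction -/
theorem hard {L : List Bool → Bool} (hL : L ∈ N68a2faeb.NP) :
    ∃ (f : List Bool → List Bool) (g : List Sym → List Sym), FP g ∧
      (∀ x, g ((bitEncode x).map bs) = (f x).map bs) ∧
      ∀ w, ∃ s : SepInstance, f w = encodeInstance s ∧ (∀ v, s.x v = 1 / 3) ∧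
        s.G.CliqueFree 4 ∧ (L w = true ↔ ∃ I, s.Violates I) := by
  obtain ⟨g, hg, hLg⟩ := cook_levin hL
  refine ⟨fun x => encodeInstance (red (g ((bitEncode x).map bs))),
    fun s => outS wcode (g s), FP.comp (FP.outS wcode) hg, fun x => outS_eq _, fun w => ?_⟩
  refine ⟨red (g ((bitEncode w).map bs)), rfl, fun _ => rfl, red_cliqueFree _, ?_⟩
  rw [hLg, ← red_correct]

theorem np_subset_p {A : List Bool → List Bool} (hA : N68a2faeb.IsPolyTime A)
    (h : ∀ s : SepInstance, (∀ v, s.x v = 1 / 3) → s.G.CliqueFree 4 → SolvesOn A s) :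
    N68a2faeb.NP ⊆ N68a2faeb.P := by
  intro L hL
  obtain ⟨f, g, hg, hfg, hs⟩ := hard hL
  obtain ⟨a, ha, haA⟩ := FP.ofTM2 hA
  have h1 : FP (fun s => a (bits (g s))) := FP.comp ha (fp_bits hg)
  refine mem_P_of_fp (g := fun s => if (a (bits (g s))).isEmpty then [bs false] else [bs true])
    (FP.ite (FP.isEmpty h1) (FP.const _) (FP.const _)) (fun x => ?_)
  have h2 : a (bits (g ((bitEncode x).map bs))) = (bitEncode (A (f x))).map bs := by
    rw [hfg, bits_map_bs]
    exact haA (f x)
  simp only [h2]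
  obtain ⟨s, hs1, hs2, hs3, hs4⟩ := hs x
  rcases h s hs2 hs3 with ⟨h3, h4⟩ | ⟨I, h3, h4⟩
  · rw [hs1, h3]
    have : L x = false := by
      by_contra hc
      rw [Bool.not_eq_false] at hc
      exact h4 (hs4.1 hc)
    rw [this]
    rfl
  · rw [hs1, h4]
    have : L x = true := hs4.2 ⟨I, h3⟩
    rw [this, bitEncode_bits]
    rfl

end CL

/-- The separation problem for partitionable graph inequalities is NP-hard. -/
theorem np_hard :
    (∀ L ∈ N68a2faeb.NP, ∃ f : List Bool → List Bool, N68a2faeb.IsPolyTime f ∧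
      ∀ w : List Bool, ∃ s : SepInstance, f w = encodeInstance s ∧
        (∀ v, s.x v = 1 / 3) ∧ s.G.CliqueFree 4 ∧
        (∀ K : Finset (Fin s.n), s.G.IsClique (K : Set (Fin s.n)) → ∑ v ∈ K, s.x v ≤ 1) ∧
        (L w = true ↔ ∃ I, s.Violates I)) ∧
    ((∃ A : List Bool → List Bool, N68a2faeb.IsPolyTime A ∧
      ∀ s : SepInstance, (∀ v, s.x v = 1 / 3) → s.G.CliqueFree 4 → SolvesOn A s) →
      N68a2faeb.NP ⊆ N68a2faeb.P) := by
  refine ⟨fun L hL => ?_, fun ⟨A, hA, h⟩ => CL.np_subset_p hA h⟩
  obtain ⟨f, g, hg, hfg, hs⟩ := CL.hard hL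
  refine ⟨f, CL.isPolyTime_of_fp hg hfg, fun w => ?_⟩
  obtain ⟨s, h1, h2, h3, h4⟩ := hs w
  exact ⟨s, h1, h2, h3, clique_ineq h2 h3, h4⟩

end Pool.Agent.PartSep
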